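import Pool.Agent.Run7.h507.KR.Defs
/-! Project KR (helper507), piece MX. -/
set_option autoImplicit false
open Filter Topology

namespace Run7.h646.KR
open Pool.Agent.Run7.h507.KR

/-- the statement of MX with the integer exponent (in `S_MX` the first `k` was read as a natural
number, with truncated subtraction) -/
def S_MXc : Prop := ∃ A : ℤ → ℝ,
  (∀ k : ℤ, HasSum (fun m : ℕ => B m * (1 + 8 / 25 * (17 / 50 : ℝ) ^ (k - 1 - (m : ℤ)))⁻¹) (A k)) ∧
  (∀ k, 0 < A k) ∧ A 0 ≤ 2 ∧ (∀ k, 0 ≤ k → A (k + 1) = A k + 1) ∧ ∀ k, k < 0 → A (k + 1) ≤ A k + 1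

/-- the kernel factor -/
noncomputable def c (k : ℤ) (m : ℕ) : ℝ := (1 + 8 / 25 * (17 / 50 : ℝ) ^ (k - 1 - m))⁻¹

lemma c_pos (k : ℤ) (m : ℕ) : 0 < c k m := by unfold c; positivity

lemma c_le_one (k : ℤ) (m : ℕ) : c k m ≤ 1 := by
  unfold c
  apply inv_le_one_of_one_le₀
  have : (0 : ℝ) < (17 / 50 : ℝ) ^ (k - 1 - m) := by positivity
  linarith

lemma pow_eq (k : ℤ) (m : ℕ) : (17 / 50 : ℝ) ^ (k - 1 - m) = (17 / 50 : ℝ) ^ k / (17 / 50) ^ (m + 1) := by
  rw [← zpow_natCast (17 / 50 : ℝ) (m + 1), ← zpow_sub₀ (by norm_num)]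
  congr 1
  push_cast
  ring

lemma c_eq (k : ℤ) (m : ℕ) :
    (17 / 50 : ℝ) ^ (m + 1) / ((17 / 50) ^ (m + 1) + 8 / 25 * (17 / 50 : ℝ) ^ k) = c k m := by
  unfold c
  rw [pow_eq]
  have h1 : (0 : ℝ) < (17 / 50 : ℝ) ^ (m + 1) := by positivity
  have h2 : (0 : ℝ) < (17 / 50 : ℝ) ^ k := by positivity
  field_simp

lemma c_succ (k : ℤ) (m : ℕ) : c (k + 1) (m + 1) = c k m := by
  unfold c
  have : (k + 1 - 1 - ((m + 1 : ℕ) : ℤ)) = k - 1 - m := by push_cast; ring
  rw [this]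

lemma c_le (k : ℤ) (m : ℕ) : c k m ≤ (25 / 8 * (17 / 50) / (17 / 50 : ℝ) ^ k) * (17 / 50) ^ m := by
  rw [← c_eq]
  have h1 : (0 : ℝ) < (17 / 50 : ℝ) ^ (m + 1) := by positivity
  have h2 : (0 : ℝ) < (17 / 50 : ℝ) ^ k := by positivity
  calc (17 / 50 : ℝ) ^ (m + 1) / ((17 / 50) ^ (m + 1) + 8 / 25 * (17 / 50 : ℝ) ^ k)
      ≤ (17 / 50 : ℝ) ^ (m + 1) / (8 / 25 * (17 / 50 : ℝ) ^ k) := by
        apply div_le_div_of_nonneg_left h1.le (by positivity)
        linarith
    _ = (25 / 8 * (17 / 50) / (17 / 50 : ℝ) ^ k) * (17 / 50) ^ m := by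
        rw [pow_succ]
        field_simp

theorem t_MXc : S_PP → S_T0B → S_TQ → S_MXc := by
  intro hPP hT0B hTQ
  obtain ⟨hPpos, hPanti, hPsum, hP1⟩ := hPP
  obtain ⟨hT0, hT1, hB0, hB0e, hB1, hBle⟩ := hT0B
  have hT0p : 0 < T0 := by linarith
  have hBb : ∀ m, B m ≤ 1 / T0 := by
    intro m
    rcases m with _ | _ | m
    · exact hB0e.le
    · rw [hB1]; positivity
    · refine (hBle _ (by omega)).trans ?_
      apply div_le_div_of_nonneg_right (by norm_num) hT0p.le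
  have hgeo : Summable (fun m : ℕ => (17 / 50 : ℝ) ^ m) :=
    summable_geometric_of_lt_one (by norm_num) (by norm_num)
  have hsum : ∀ k, Summable (fun m : ℕ => B m * c k m) := by
    intro k
    refine Summable.of_nonneg_of_le (fun m => mul_nonneg (hB0 m) (c_pos k m).le) (fun m => ?_)
      (hgeo.mul_left (1 / T0 * (25 / 8 * (17 / 50) / (17 / 50 : ℝ) ^ k)))
    rw [mul_assoc]
    exact mul_le_mul (hBb m) (c_le k m) (c_pos k m).le (by positivity)
  have hsT : ∀ k, HasSum (fun m : ℕ => (-1) ^ m * P m * c k m) (T ((17 / 50 : ℝ) ^ k)) := by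
    intro k
    have hs : Summable (fun m : ℕ => (-1) ^ m * P m * c k m) := by
      refine Summable.of_norm_bounded hPsum (fun m => ?_)
      rw [norm_mul, norm_mul, norm_pow, norm_neg, norm_one, one_pow, one_mul,
        Real.norm_of_nonneg (hPpos m).le, Real.norm_of_nonneg (c_pos k m).le]
      exact mul_le_of_le_one_right (hPpos m).le (c_le_one k m)
    have he : T ((17 / 50 : ℝ) ^ k) = ∑' m : ℕ, (-1) ^ m * P m * c k m := by
      unfold T
      refine tsum_congr fun m => ?_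
      rw [c_eq]
    rw [he]
    exact hs.hasSum
  have hA : ∀ k, HasSum (fun m : ℕ => B m * c k m) (∑' m : ℕ, B m * c k m) := fun k =>
    (hsum k).hasSum
  have hstep : ∀ k : ℤ, (∑' m : ℕ, B m * c (k + 1) m) =
      (∑' m : ℕ, B m * c k m) + T ((17 / 50 : ℝ) ^ (k + 1)) / T0 := by
    intro k
    have h1 := (hasSum_nat_add_iff' 1).mpr (hA (k + 1))
    have h2 := (hasSum_nat_add_iff' 1).mpr (hsT (k + 1))
    simp only [Finset.range_one, Finset.sum_singleton, pow_zero, one_mul] at h1 h2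
    have h3 := h1.sub (hA k)
    have h4 := h2.mul_left (1 / T0)
    have hfun : (fun m : ℕ => B (m + 1) * c (k + 1) (m + 1) - B m * c k m) =
        fun m : ℕ => 1 / T0 * ((-1) ^ (m + 1) * P (m + 1) * c (k + 1) (m + 1)) := by
      funext m
      have hB : B (m + 1) = B m + (-1) ^ (m + 1) * P (m + 1) / T0 := by
        unfold B
        rw [Finset.sum_range_succ, add_div]
      rw [c_succ, hB]
      ring
    rw [hfun] at h3
    have h5 := h3.unique h4
    have hP0 : P 0 = 1 := rfl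
    rw [hP0, hB0e] at h5
    have : T ((17 / 50 : ℝ) ^ (k + 1)) / T0 = 1 / T0 * T ((17 / 50 : ℝ) ^ (k + 1)) := by ring
    rw [this]
    linarith
  refine ⟨fun k => ∑' m : ℕ, B m * c k m, hA, ?_, ?_, ?_, ?_⟩
  · intro k
    refine (hsum k).tsum_pos (fun m => mul_nonneg (hB0 m) (c_pos k m).le) 0 ?_
    rw [hB0e]
    have := c_pos k 0
    positivity
  · -- `A 0 ≤ 2`
    have h1 := (hasSum_nat_add_iff' 2).mpr (hA 0)
    have hg : HasSum (fun m : ℕ => (4926 / 10000) / T0 * (25 / 8 * (17 / 50) ^ 3 * (17 / 50 : ℝ) ^ m))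
        ((4926 / 10000) / T0 * (25 / 8 * (17 / 50) ^ 3 * (1 - 17 / 50)⁻¹)) :=
      ((hasSum_geometric_of_lt_one (by norm_num) (by norm_num)).mul_left _).mul_left _
    have hle := hasSum_le (fun m => ?_) h1 hg
    · have e : ∑ i ∈ Finset.range 2, B i * c 0 i = 1 / T0 * (17 / 33) := by
        rw [Finset.sum_range_succ, Finset.sum_range_one, hB1, hB0e]
        have : c 0 0 = 17 / 33 := by
          rw [← c_eq]
          norm_num
        rw [this]
        ring
      rw [e] at hle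
      have h6 : (∑' m : ℕ, B m * c 0 m) ≤ (17 / 33 + 4926 / 10000 *
          (25 / 8 * (17 / 50) ^ 3 * (1 - 17 / 50)⁻¹)) / T0 := by
        have : (17 / 33 + 4926 / 10000 * (25 / 8 * (17 / 50) ^ 3 * (1 - 17 / 50)⁻¹)) / T0 =
            1 / T0 * (17 / 33) + (4926 / 10000) / T0 *
              (25 / 8 * (17 / 50) ^ 3 * (1 - 17 / 50)⁻¹) := by ring
        rw [this]
        linarith
      refine h6.trans ?_
      rw [div_le_iff₀ hT0p]
      norm_num at hT0 ⊢
      linarith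
    · have h7 := c_le 0 (m + 2)
      have h8 : (25 / 8 * (17 / 50) / (17 / 50 : ℝ) ^ (0 : ℤ)) * (17 / 50) ^ (m + 2) =
          25 / 8 * (17 / 50) ^ 3 * (17 / 50 : ℝ) ^ m := by
        rw [zpow_zero, pow_add]
        ring
      rw [h8] at h7
      exact mul_le_mul (hBle (m + 2) (by omega)) h7 (c_pos 0 (m + 2)).le (by positivity)
  · intro k hk
    show (∑' m : ℕ, B m * c (k + 1) m) = (∑' m : ℕ, B m * c k m) + 1
    rw [hstep, hTQ.1 (k + 1) (by omega), div_self hT0p.ne']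
  · intro k hk
    show (∑' m : ℕ, B m * c (k + 1) m) ≤ (∑' m : ℕ, B m * c k m) + 1
    rw [hstep]
    have h9 := hTQ.2 (k + 1) (by omega)
    have : T ((17 / 50 : ℝ) ^ (k + 1)) / T0 ≤ 1 := by
      rw [div_le_one hT0p]
      exact h9
    linarith

end Run7.h646.KR

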